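/-
MP_4845bf_pr, Q1 (full answer, for every k ≥ 1): the best invariant predictive density of the
normal regression model with unknown variance is inadmissible under the α-divergence loss, for
every -1 ≤ α < 1.

Definitions (`Pool/Agent/L7h38/PD`): `E d = EuclideanSpace ℝ (Fin d)`; `gauss μ v` density of
`N_d(μ, v I)`; `fdiv α = f_α`; `mv X β = X β`; `loss`, `risk`, `FiniteRisk`, `IsPredictive`,
`genBayesRaw`, `genBayes`, `bestInvariant` (generalised Bayes rule for the prior `1/σ²`),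
`Dominates`.
-/
import Pool.Agent.L7h38.PD.Final2
import Pool.Agent.L7h38.PD.CoreAsm
import Pool.Agent.L7h26.PD.Om
import Pool.Agent.L7h26.PD.Int2
import Pool.Agent.L7h26.PD.Int
import Pool.Agent.L7h26.PD.Ball
import Pool.Agent.L7h26.PD.Cosh
import Pool.Agent.L7h26.PD.Low
import Pool.Agent.L7h37.PDH.Ibp
import Pool.Agent.L7h37.PDH.Ibp1a
import Pool.Agent.L7h37.PDH.Ibp1b
import Pool.Agent.L7h37.PDH.Log
import Pool.Agent.L7h98.PD.Map
import Pool.Agent.L7h98.PD.Bayes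
import Pool.Agent.L7h98.PD.Lin
import Pool.Agent.L7h98.PD.Norm
import Pool.Agent.L7h98.PD.Kli
import Pool.Agent.L7h98.PD.Iso

open MeasureTheory Set Filter Topology
open Pool.Agent.L7h38.PD

namespace Pool.Agent.Results.MP_4845bf_pr.Inadmissible

theorem core : S_CORE :=
  s_CORE_of (Pool.Agent.L7h26.PD.s_INT Pool.Agent.L7h26.PD.s_INT2) Pool.Agent.L7h26.PD.s_OM
    (Pool.Agent.L7h37.PDH.s_IBP Pool.Agent.L7h26.PD.s_INT2 Pool.Agent.L7h26.PD.s_OM
      Pool.Agent.L7h37.PDH.s_IBP1a Pool.Agent.L7h37.PDH.s_IBP1b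
      (Pool.Agent.L7h37.PDH.s_IBP2 Pool.Agent.L7h26.PD.s_OM))
    Pool.Agent.L7h26.PD.s_COSH (Pool.Agent.L7h26.PD.s_BALL Pool.Agent.L7h26.PD.s_OM)
    (Pool.Agent.L7h26.PD.s_LOW (Pool.Agent.L7h26.PD.s_INT Pool.Agent.L7h26.PD.s_INT2)
      Pool.Agent.L7h26.PD.s_OM)
    (Pool.Agent.L7h26.PD.s_UP (Pool.Agent.L7h26.PD.s_INT Pool.Agent.L7h26.PD.s_INT2))

/-- For all `n > k ≥ 1`, `m ≥ 1`, all `n × k` matrices `X` of rank `k`, all `m × k` matrices `Xt`
of rank `min m k` and all `-1 ≤ α < 1`: the best invariant predictive density is a strictly positive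
probability density for almost every `y`, has finite risk, and there is a strictly positive
predictive density `q` which dominates it under `D_α`, with strictly smaller risk at every
parameter `(β, σ²)`. (As both densities are positive, the convention `Real.log 0 = 0` plays no role
for `α = -1`.) -/
theorem result (n k m : ℕ) (hk : 1 ≤ k) (hkn : k < n) (hm : 1 ≤ m)
    (X : Matrix (Fin n) (Fin k) ℝ) (hX : X.rank = k)
    (Xt : Matrix (Fin m) (Fin k) ℝ) (hXt : Xt.rank = min m k)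
    (α : ℝ) (hα : -1 ≤ α) (hα1 : α < 1) :
    (∀ᵐ y : E n, (∀ z, 0 < bestInvariant X Xt α y z) ∧ ∫ z, bestInvariant X Xt α y z = 1) ∧
    ∃ q : E n → E m → ℝ, IsPredictive q ∧ (∀ y z, 0 < q y z) ∧
      Dominates X Xt α q (bestInvariant X Xt α) ∧
      ∀ (β : E k) (v : ℝ), 0 < v →
        risk X Xt α q β v < risk X Xt α (bestInvariant X Xt α) β v := by
  have hXt0 : Xt ≠ 0 := by
    intro h
    rw [h, Matrix.rank_zero] at hXt
    omega
  obtain ⟨h1, q, hq, hpos, hf, hfU, hr⟩ := final_of core Pool.Agent.L7h98.PD.s_MAP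
    Pool.Agent.L7h37.PDH.s_LOG Pool.Agent.L7h37.PDH.s_PWR Pool.Agent.L7h98.PD.s_KLI
    Pool.Agent.L7h98.PD.s_ISO Pool.Agent.L7h98.PD.s_LIN Pool.Agent.L7h98.PD.s_NORM
    Pool.Agent.L7h98.PD.s_BAYES hkn X (mv_injective hX) Xt hXt0 hα hα1
  exact ⟨h1, q, hq, hpos, ⟨hf, hfU, fun β v hv => (hr β v hv).le, 0, 1, one_pos, hr 0 1 one_pos⟩, hr⟩

end Pool.Agent.Results.MP_4845bf_pr.Inadmissible
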